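import Pool.Agent.W5h90.FL.S

/-!
# The realization for finitary semilinear transformations
-/

set_option autoImplicit false

namespace Pool.Agent.W5h90.FL

open Pool.Agent.Y110.FJ

theorem mkQ0 {K V : Type} [Field K] [AddCommGroup V] [Module K V] (W : Submodule K V) {v : V} :
    W.mkQ v = 0 ↔ v ∈ W := by
  rw [Submodule.mkQ_apply]
  exact Submodule.Quotient.mk_eq_zero W

section

variable {k K V H : Type} [Field k] [Field K] [Algebra k K] [AddCommGroup V] [Module k V]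
  [Module K V] [IsScalarTower k K V] [Group H]

/-- an action on `V` by semilinear maps, `h` being semilinear with respect to the automorphism `σ h` -/
def Semi (σ : H →* (K ≃ₐ[k] K)) (ρ : H →* (V ≃ₗ[k] V)) : Prop :=
  ∀ (h : H) (a : K) (v : V), ρ h (a • v) = σ h a • ρ h v

/-- a linear map of the action -/
def lin {σ : H →* (K ≃ₐ[k] K)} {ρ : H →* (V ≃ₗ[k] V)} (hs : Semi σ ρ) (x : H) (hx : σ x = 1) :
    V →ₗ[K] V where
  toFun v := ρ x v
  map_add' := fun u v => map_add _ _ _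
  map_smul' := fun a v => by rw [hs x a v, hx]; rfl

/-- the image of a subspace -/
def img {σ : H →* (K ≃ₐ[k] K)} {ρ : H →* (V ≃ₗ[k] V)} (hs : Semi σ ρ) (g : H) (W : Submodule K V) :
    Submodule K V where
  carrier := {v | ρ g⁻¹ v ∈ W}
  add_mem' := fun {a b} ha hb => by
    show ρ g⁻¹ (a + b) ∈ W
    rw [map_add]
    exact W.add_mem ha hb
  zero_mem' := by
    show ρ g⁻¹ 0 ∈ W
    rw [map_zero]
    exact W.zero_mem
  smul_mem' := fun a v hv => by
    show ρ g⁻¹ (a • v) ∈ W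
    rw [hs]
    exact W.smul_mem _ hv

variable {σ : H →* (K ≃ₐ[k] K)} {ρ : H →* (V ≃ₗ[k] V)} (hs : Semi σ ρ)

theorem ρ_inv (g : H) (v : V) : ρ g⁻¹ (ρ g v) = v := by
  rw [← LinearEquiv.mul_apply, ← map_mul, inv_mul_cancel, map_one]; rfl

theorem ρ_inv' (g : H) (v : V) : ρ g (ρ g⁻¹ v) = v := by
  rw [← LinearEquiv.mul_apply, ← map_mul, mul_inv_cancel, map_one]; rfl

theorem mem_img (g : H) (W : Submodule K V) (v : V) : v ∈ img hs g W ↔ ∃ w ∈ W, ρ g w = v := by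
  constructor
  · intro h
    exact ⟨_, h, ρ_inv' g v⟩
  · rintro ⟨w, hw, rfl⟩
    show ρ g⁻¹ (ρ g w) ∈ W
    rw [ρ_inv]
    exact hw

theorem img_isCompl (g : H) {W W' : Submodule K V} (h : IsCompl W W') :
    IsCompl (img hs g W) (img hs g W') := by
  constructor
  · rw [Submodule.disjoint_def]
    intro v h1 h2
    have h3 := (Submodule.disjoint_def.1 h.disjoint) _ h1 h2
    rw [← ρ_inv' (ρ := ρ) g v, h3, map_zero]
  · rw [codisjoint_iff, eq_top_iff]
    intro v _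
    have h1 : ρ g⁻¹ v ∈ W ⊔ W' := by rw [h.sup_eq_top]; trivial
    obtain ⟨a, ha, b, hb, hab⟩ := Submodule.mem_sup.1 h1
    refine Submodule.mem_sup.2 ⟨ρ g a, (mem_img hs g W _).2 ⟨a, ha, rfl⟩, ρ g b,
      (mem_img hs g W' _).2 ⟨b, hb, rfl⟩, ?_⟩
    rw [← map_add, hab, ρ_inv']

theorem img_sup_top (g : H) {W W' : Submodule K V} (h : W ⊔ W' = ⊤) :
    img hs g W ⊔ img hs g W' = ⊤ := by
  rw [eq_top_iff]
  intro v _
  have h1 : ρ g⁻¹ v ∈ W ⊔ W' := by rw [h]; trivial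
  obtain ⟨a, ha, b, hb, hab⟩ := Submodule.mem_sup.1 h1
  refine Submodule.mem_sup.2 ⟨ρ g a, (mem_img hs g W _).2 ⟨a, ha, rfl⟩, ρ g b,
    (mem_img hs g W' _).2 ⟨b, hb, rfl⟩, ?_⟩
  rw [← map_add, hab, ρ_inv']

theorem img_span (g : H) {n : ℕ} (b : Fin n → V) :
    img hs g (Submodule.span K (Set.range b)) = Submodule.span K (Set.range fun i => ρ g (b i)) := by
  apply le_antisymm
  · intro v hv
    obtain ⟨w, hw, rfl⟩ := (mem_img hs g _ _).1 hv
    obtain ⟨c, rfl⟩ := (Submodule.mem_span_range_iff_exists_fun K).1 hw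
    rw [map_sum]
    refine Submodule.sum_mem _ fun i _ => ?_
    rw [hs]
    exact Submodule.smul_mem _ _ (Submodule.subset_span ⟨i, rfl⟩)
  · rw [Submodule.span_le]
    rintro _ ⟨i, rfl⟩
    exact (mem_img hs g _ _).2 ⟨_, Submodule.subset_span ⟨i, rfl⟩, rfl⟩

include hs in
/-- **realization for finitary semilinear transformations** -/
theorem lemS [Algebra.IsAlgebraic k K] (E : Set H) (hE : E.Finite) (g : H)
    (hσ : ∀ x ∈ E, σ x = 1)
    (hfin : ∀ x ∈ E, FiniteDimensional K (Submodule.span K (Set.range fun v => ρ x v - v)))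
    (hf : ∀ h ∈ Subgroup.closure (E ∪ (fun x => g * x * g⁻¹) '' E), (∀ v, ρ h v = v) → h = 1) :
    ∃ (m : ℕ) (f : ↥(Subgroup.closure (E ∪ (fun x => g * x * g⁻¹) '' E)) →* GL (Fin m) k)
      (p : GL (Fin m) k), Function.Injective f ∧
      ∀ x y : ↥(Subgroup.closure (E ∪ (fun x => g * x * g⁻¹) '' E)),
        (x : H) ∈ E → (y : H) = g * x * g⁻¹ → f y = p * f x * p⁻¹ := by
  classical
  haveI : Finite E := hE
  -- the finite dimensional subspace moved by `E`, and the fixed space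
  let R : Submodule K V := ⨆ x : E, Submodule.span K (Set.range fun v => ρ (x : H) v - v)
  haveI hRfin : FiniteDimensional K R := by
    haveI : ∀ x : E, FiniteDimensional K (Submodule.span K (Set.range fun v => ρ (x : H) v - v)) :=
      fun x => hfin x x.2
    exact Submodule.finiteDimensional_iSup _
  have hR : ∀ x ∈ E, ∀ v, ρ x v - v ∈ R := fun x hx v =>
    (le_iSup (fun x : E => Submodule.span K (Set.range fun v => ρ (x : H) v - v)) ⟨x, hx⟩)
      (Submodule.subset_span ⟨v, rfl⟩)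
  let Φ : V →ₗ[K] (E → R) := LinearMap.pi fun x =>
    LinearMap.codRestrict R (lin hs x (hσ x x.2) - LinearMap.id) fun v => hR x x.2 v
  let KE : Submodule K V := LinearMap.ker Φ
  have hKE : ∀ v ∈ KE, ∀ x ∈ E, ρ x v = v := by
    intro v hv x hx
    have h1 : Φ v ⟨x, hx⟩ = 0 := by rw [LinearMap.mem_ker.1 hv]; rfl
    have h2 : ρ x v - v = 0 := congrArg Subtype.val h1
    exact sub_eq_zero.1 h2
  haveI : FiniteDimensional K (E → R) := by
    haveI := Fintype.ofFinite E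
    infer_instance
  obtain ⟨W, hWfin, hW⟩ := suppl Φ
  -- the decomposition
  let U₀ : Submodule K V := R ⊔ W
  haveI hU₀fin : FiniteDimensional K U₀ := Submodule.finiteDimensional_sup R W
  have hU₀top : U₀ ⊔ KE = ⊤ := by
    rw [eq_top_iff, ← hW]
    exact sup_le_sup_right le_sup_right _
  have hEU : ∀ x ∈ E, ∀ u ∈ U₀, ρ x u ∈ U₀ := by
    intro x hx u hu
    have h1 : ρ x u = (ρ x u - u) + u := by abel
    rw [h1]
    exact U₀.add_mem (Submodule.mem_sup_left (hR x hx u)) hu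
  obtain ⟨K₀, hK₀, hc⟩ := compl_in U₀ KE hU₀top
  have hcg := img_isCompl hs g hc
  -- a common supplement
  let gKE := img hs g KE
  have hgW := img_sup_top hs g hW
  obtain ⟨n₁, w₁, hw₁⟩ := span_fin W
  haveI hgWfin : FiniteDimensional K (img hs g W) := by
    rw [← hw₁, img_span]
    exact FiniteDimensional.span_of_finite K (Set.finite_range _)
  haveI q1 : FiniteDimensional K (V ⧸ KE) := by
    refine Module.Finite.of_surjective (KE.mkQ.comp W.subtype) ?_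
    intro y
    obtain ⟨v, rfl⟩ := KE.mkQ_surjective y
    have h1 : v ∈ W ⊔ KE := by rw [hW]; trivial
    obtain ⟨a, ha, b, hb, rfl⟩ := Submodule.mem_sup.1 h1
    refine ⟨⟨a, ha⟩, ?_⟩
    show KE.mkQ a = KE.mkQ (a + b)
    rw [map_add, (mkQ0 KE).2 hb, add_zero]
  haveI q2 : FiniteDimensional K (V ⧸ gKE) := by
    refine Module.Finite.of_surjective (gKE.mkQ.comp (img hs g W).subtype) ?_
    intro y
    obtain ⟨v, rfl⟩ := gKE.mkQ_surjective y
    have h1 : v ∈ img hs g W ⊔ gKE := by rw [hgW]; trivial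
    obtain ⟨a, ha, b, hb, rfl⟩ := Submodule.mem_sup.1 h1
    refine ⟨⟨a, ha⟩, ?_⟩
    show gKE.mkQ a = gKE.mkQ (a + b)
    rw [map_add, (mkQ0 gKE).2 hb, add_zero]
  obtain ⟨W₃, hW₃fin, hW₃⟩ := suppl (KE.mkQ.prod gKE.mkQ)
  have hW₃' : ∀ v : V, ∃ w ∈ W₃, ∃ u, u ∈ KE ∧ u ∈ gKE ∧ v = w + u := by
    intro v
    have h1 : v ∈ W₃ ⊔ LinearMap.ker (KE.mkQ.prod gKE.mkQ) := by rw [hW₃]; trivial
    obtain ⟨a, ha, b, hb, hab⟩ := Submodule.mem_sup.1 h1
    have h2 : (KE.mkQ b, gKE.mkQ b) = 0 := hb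
    exact ⟨a, ha, b, (mkQ0 KE).1 (congrArg Prod.fst h2),
      (mkQ0 gKE).1 (congrArg Prod.snd h2), hab.symm⟩
  -- the spanning families
  obtain ⟨n₀, b₀, hb₀⟩ := span_fin U₀
  have hgU₀ : img hs g U₀ = Submodule.span K (Set.range fun i => ρ g (b₀ i)) := by
    rw [← hb₀, img_span]
  haveI hgU₀fin : FiniteDimensional K (img hs g U₀) := by
    rw [hgU₀]
    exact FiniteDimensional.span_of_finite K (Set.finite_range _)
  let UK : Submodule K V := (U₀ ⊔ img hs g U₀) ⊔ W₃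
  haveI hUKfin : FiniteDimensional K UK := by
    haveI := Submodule.finiteDimensional_sup U₀ (img hs g U₀)
    exact Submodule.finiteDimensional_sup _ _
  obtain ⟨n, b, hb⟩ := span_fin UK
  have hU₀UK : U₀ ≤ UK := le_sup_left.trans le_sup_left
  have hgU₀UK : img hs g U₀ ≤ UK := le_sup_right.trans le_sup_left
  have hW₃UK : W₃ ≤ UK := le_sup_right
  have hb₀mem : ∀ j, b₀ j ∈ U₀ := fun j => by
    rw [← hb₀]; exact Submodule.subset_span ⟨j, rfl⟩
  -- the coefficients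
  obtain ⟨c₁, hc₁⟩ := exists_coef b b₀ (fun j => by rw [hb]; exact hU₀UK (hb₀mem j))
  obtain ⟨c₂, hc₂⟩ := exists_coef b (fun j => ρ g (b₀ j)) (fun j => by
    rw [hb]; exact hgU₀UK ((mem_img hs g _ _).2 ⟨_, hb₀mem j, rfl⟩))
  have hdec1 : ∀ v : V, ∃ a ∈ U₀, ∃ c ∈ K₀, v = a + c := fun v => by
    have h1 : v ∈ U₀ ⊔ K₀ := by rw [hc.sup_eq_top]; trivial
    obtain ⟨a, ha, c, hc, h⟩ := Submodule.mem_sup.1 h1
    exact ⟨a, ha, c, hc, h.symm⟩
  have hdec2 : ∀ v : V, ∃ a ∈ img hs g U₀, ∃ c ∈ img hs g K₀, v = a + c := fun v => by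
    have h1 : v ∈ img hs g U₀ ⊔ img hs g K₀ := by rw [hcg.sup_eq_top]; trivial
    obtain ⟨a, ha, c, hc, h⟩ := Submodule.mem_sup.1 h1
    exact ⟨a, ha, c, hc, h.symm⟩
  choose π₁ hπ₁ ν₁ hν₁ hd₁ using fun i => hdec1 (b i)
  choose π₂ hπ₂ ν₂ hν₂ hd₂ using fun i => hdec2 (b i)
  obtain ⟨c₃, hc₃⟩ := exists_coef b₀ π₁ (fun i => by rw [hb₀]; exact hπ₁ i)
  obtain ⟨c₄, hc₄⟩ := exists_coef (fun j => ρ g (b₀ j)) π₂ (fun i => by rw [← hgU₀]; exact hπ₂ i)
  have hcx : ∀ x : E, ∃ c : Fin n₀ → Fin n₀ → K, ∀ j, ρ (x : H) (b₀ j) = ∑ i, c j i • b₀ i := fun x =>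
    exists_coef b₀ (fun j => ρ (x : H) (b₀ j)) (fun j => by
      rw [hb₀]; exact hEU x x.2 _ (hb₀mem j))
  choose c₅ hc₅ using hcx
  -- the field
  obtain ⟨L, hLfin, hSL, hLst⟩ := stable_field k K
    (((Set.range fun q : Fin n₀ × Fin n => c₁ q.1 q.2) ∪ (Set.range fun q : Fin n₀ × Fin n => c₂ q.1 q.2)) ∪
      ((Set.range fun q : Fin n × Fin n₀ => c₃ q.1 q.2) ∪ (Set.range fun q : Fin n × Fin n₀ => c₄ q.1 q.2)) ∪
      (Set.range fun q : E × Fin n₀ × Fin n₀ => c₅ q.1 q.2.1 q.2.2))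
    ((((Set.finite_range _).union (Set.finite_range _)).union
      ((Set.finite_range _).union (Set.finite_range _))).union (Set.finite_range _))
  have hL₁ : ∀ i j, c₁ i j ∈ L := fun i j => hSL (Or.inl (Or.inl (Or.inl ⟨(i, j), rfl⟩)))
  have hL₂ : ∀ i j, c₂ i j ∈ L := fun i j => hSL (Or.inl (Or.inl (Or.inr ⟨(i, j), rfl⟩)))
  have hL₃ : ∀ i j, c₃ i j ∈ L := fun i j => hSL (Or.inl (Or.inr (Or.inl ⟨(i, j), rfl⟩)))
  have hL₄ : ∀ i j, c₄ i j ∈ L := fun i j => hSL (Or.inl (Or.inr (Or.inr ⟨(i, j), rfl⟩)))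
  have hL₅ : ∀ x i j, c₅ x i j ∈ L := fun x i j => hSL (Or.inr ⟨(x, i, j), rfl⟩)
  -- the lattices
  let A : Submodule k V := lat L b₀
  let U : Submodule k V := lat L b
  haveI : FiniteDimensional k A := lat_fin L b₀
  haveI : FiniteDimensional k U := lat_fin L b
  have hAU₀ : ∀ a ∈ A, a ∈ U₀ := fun a ha => by
    have := lat_le L b₀ ha
    rwa [hb₀] at this
  have hAU : A ≤ U := by
    intro a ha
    obtain ⟨c, hcL, rfl⟩ := (mem_lat L b₀ a).1 ha
    exact lat_sum L b c hcL _ fun j => (mem_lat L b _).2 ⟨c₁ j, hL₁ j, hc₁ j⟩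
  have hgAlat : ∀ v, v ∈ A.map (ρ g : V →ₗ[k] V) ↔ v ∈ lat L fun j => ρ g (b₀ j) := by
    intro v
    constructor
    · intro hv
      obtain ⟨a, ha, rfl⟩ := Submodule.mem_map.1 hv
      obtain ⟨c, hcL, rfl⟩ := (mem_lat L b₀ a).1 ha
      refine (mem_lat L _ _).2 ⟨fun i => σ g (c i), fun i => hLst _ _ (hcL i), ?_⟩
      show ρ g (∑ i, c i • b₀ i) = _
      rw [map_sum]
      exact Finset.sum_congr rfl fun i _ => hs _ _ _
    · intro hv
      obtain ⟨c, hcL, rfl⟩ := (mem_lat L _ v).1 hv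
      refine Submodule.mem_map.2 ⟨∑ i, (σ g).symm (c i) • b₀ i,
        (mem_lat L b₀ _).2 ⟨fun i => (σ g).symm (c i), fun i => hLst _ _ (hcL i), rfl⟩, ?_⟩
      show ρ g (∑ i, (σ g).symm (c i) • b₀ i) = _
      rw [map_sum]
      refine Finset.sum_congr rfl fun i _ => ?_
      rw [hs, AlgEquiv.apply_symm_apply]
  have hgAU : A.map (ρ g : V →ₗ[k] V) ≤ U := by
    intro v hv
    obtain ⟨c, hcL, rfl⟩ := (mem_lat L _ v).1 ((hgAlat v).1 hv)
    exact lat_sum L b c hcL _ fun j => (mem_lat L b _).2 ⟨c₂ j, hL₂ j, hc₂ j⟩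
  let B : Submodule k V := U ⊓ K₀.restrictScalars k
  let B' : Submodule k V := U ⊓ (img hs g K₀).restrictScalars k
  haveI : FiniteDimensional k B := Submodule.finiteDimensional_of_le (inf_le_left : B ≤ U)
  have hsum1 : A ⊔ B = U := by
    apply le_antisymm (sup_le hAU inf_le_left)
    intro u hu
    obtain ⟨c, hcL, hcu⟩ := (mem_lat L b u).1 hu
    have h1 : ∑ i, c i • π₁ i ∈ A :=
      lat_sum L b₀ c hcL _ fun i => (mem_lat L b₀ _).2 ⟨c₃ i, hL₃ i, hc₃ i⟩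
    have h2 : u = ∑ i, c i • π₁ i + ∑ i, c i • ν₁ i := by
      rw [hcu, ← Finset.sum_add_distrib]
      refine Finset.sum_congr rfl fun i _ => ?_
      rw [← smul_add, ← hd₁]
    refine Submodule.mem_sup.2 ⟨_, h1, ∑ i, c i • ν₁ i, ⟨?_, ?_⟩, h2.symm⟩
    · have h3 : ∑ i, c i • ν₁ i = u - ∑ i, c i • π₁ i := by rw [h2]; abel
      rw [h3]
      exact U.sub_mem hu (hAU h1)
    · exact Submodule.sum_mem K₀ fun i _ => K₀.smul_mem _ (hν₁ i)
  have hsum2 : A.map (ρ g : V →ₗ[k] V) ⊔ B' = U := by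
    apply le_antisymm (sup_le hgAU inf_le_left)
    intro u hu
    obtain ⟨c, hcL, hcu⟩ := (mem_lat L b u).1 hu
    have h1 : ∑ i, c i • π₂ i ∈ A.map (ρ g : V →ₗ[k] V) :=
      (hgAlat _).2 (lat_sum L _ c hcL _ fun i => (mem_lat L _ _).2 ⟨c₄ i, hL₄ i, hc₄ i⟩)
    have h2 : u = ∑ i, c i • π₂ i + ∑ i, c i • ν₂ i := by
      rw [hcu, ← Finset.sum_add_distrib]
      refine Finset.sum_congr rfl fun i _ => ?_
      rw [← smul_add, ← hd₂]
    refine Submodule.mem_sup.2 ⟨_, h1, ∑ i, c i • ν₂ i, ⟨?_, ?_⟩, h2.symm⟩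
    · have h3 : ∑ i, c i • ν₂ i = u - ∑ i, c i • π₂ i := by rw [h2]; abel
      rw [h3]
      exact U.sub_mem hu (hgAU h1)
    · exact Submodule.sum_mem (img hs g K₀) fun i _ => (img hs g K₀).smul_mem _ (hν₂ i)
  refine lemR ρ E g A B B' ?_ ?_ (hsum1.trans hsum2.symm) ?_ ?_ ?_ ?_
  · rw [Submodule.disjoint_def]
    intro v hv hv'
    exact (Submodule.disjoint_def.1 hc.disjoint) v (hAU₀ v hv) hv'.2
  · rw [Submodule.disjoint_def]
    intro v hv hv'
    obtain ⟨a, ha, rfl⟩ := Submodule.mem_map.1 hv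
    exact (Submodule.disjoint_def.1 hcg.disjoint) _ ((mem_img hs g _ _).2 ⟨a, hAU₀ a ha, rfl⟩) hv'.2
  · intro x hx a ha
    obtain ⟨c, hcL, rfl⟩ := (mem_lat L b₀ a).1 ha
    rw [map_sum]
    have h1 : ∀ i, ρ x (c i • b₀ i) = c i • ρ x (b₀ i) := fun i => by
      rw [hs, hσ x hx]; rfl
    simp only [h1]
    exact lat_sum L b₀ c hcL _ fun j =>
      (mem_lat L b₀ _).2 ⟨c₅ ⟨x, hx⟩ j, hL₅ ⟨x, hx⟩ j, hc₅ ⟨x, hx⟩ j⟩
  · intro x hx v hv
    exact hKE v (hK₀ hv.2) x hx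
  · intro x hx v hv
    obtain ⟨w, hw, rfl⟩ := (mem_img hs g _ _).1 hv.2
    rw [← LinearEquiv.mul_apply, ← map_mul, inv_mul_cancel_right, map_mul, LinearEquiv.mul_apply,
      hKE w (hK₀ hw) x hx]
  · intro h hh hfix
    refine hf h hh fun v => ?_
    have hσh : σ h = 1 := by
      have h1 : Subgroup.closure (E ∪ (fun x => g * x * g⁻¹) '' E) ≤ σ.ker := by
        rw [Subgroup.closure_le]
        rintro y (hy | ⟨x, hx, rfl⟩)
        · exact hσ y hy
        · show σ (g * x * g⁻¹) = 1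
          rw [map_mul, map_mul, hσ x hx, mul_one, ← map_mul, mul_inv_cancel, map_one]
      exact h1 hh
    rw [hsum1] at hfix
    obtain ⟨w, hw, u, hu, hu', rfl⟩ := hW₃' v
    rw [map_add]
    congr 1
    · have h1 : w ∈ Submodule.span K (Set.range b) := by rw [hb]; exact hW₃UK hw
      obtain ⟨c, rfl⟩ := (Submodule.mem_span_range_iff_exists_fun K).1 h1
      rw [map_sum]
      refine Finset.sum_congr rfl fun i _ => ?_
      rw [hs, hσh, hfix _ (lat_gen L b i)]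
      rfl
    · have h1 : Subgroup.closure (E ∪ (fun x => g * x * g⁻¹) '' E) ≤
          (⟨⟨⟨{y | ρ y u = u}, fun {a b} ha hb => by
            show ρ (a * b) u = u
            rw [map_mul, LinearEquiv.mul_apply, hb, ha]⟩, by
            show ρ 1 u = u
            rw [map_one]; rfl⟩, fun {a} ha => by
            show ρ a⁻¹ u = u
            have h2 : ρ a u = u := ha
            conv_lhs => rw [← h2]
            exact ρ_inv a u⟩ : Subgroup H) := by
        rw [Subgroup.closure_le]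
        rintro y (hy | ⟨x, hx, rfl⟩)
        · exact hKE u hu y hy
        · obtain ⟨w, hw, rfl⟩ := (mem_img hs g _ _).1 hu'
          show ρ (g * x * g⁻¹) (ρ g w) = ρ g w
          rw [← LinearEquiv.mul_apply, ← map_mul, inv_mul_cancel_right, map_mul,
            LinearEquiv.mul_apply, hKE w hw x hx]
      exact h1 hh

end

end Pool.Agent.W5h90.FL
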