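import Pool.Agent.W5h90.FL.T
import Pool.Agent.W5h90.FL.M

/-!
# Extensions by groups supported on the corners of an ideal, and by finitary groups
-/

set_option autoImplicit false

namespace Pool.Agent.W5h90.FL

open Pool.Agent.Y110.FJ
open Pool.Agent.Y462.SS (Closed)

variable {C : ∀ (G : Type) [Group G], Prop}

/-- the extension theorem for a multiplicative ideal with local units -/
theorem ring_ext (hC : ClosedE C) {A : Type} [Ring A] (I : Set A)
    (hl : ∀ x : A, ∀ a ∈ I, x * a ∈ I) (hr : ∀ x : A, ∀ a ∈ I, a * x ∈ I)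
    (hI : ∀ F : Set A, F.Finite → F ⊆ I → ∃ (e : A) (he : IsIdempotentElem e), e ∈ I ∧
      (∀ x ∈ F, e * x = x ∧ x * e = x) ∧ C (Matrix (Fin 2) (Fin 2) he.Corner)ˣ)
    (G : Type) [Group G] (N : Subgroup G) [N.Normal] (hQ : C (G ⧸ N)) (θ : G →* Aˣ)
    (hN : ∀ n ∈ N, (θ n : A) - 1 ∈ I) (hf : ∀ n ∈ N, θ n = 1 → n = 1) : C G := by
  refine Pool.Agent.R630.FJ.crit C hC G N hQ fun g E hE hEN => ?_
  obtain ⟨e, he, heI, he1, -⟩ := hI ((fun x => (θ x : A) - 1) '' E) (hE.image _) (by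
    rintro _ ⟨x, hx, rfl⟩
    exact hN x (hEN hx))
  obtain ⟨e', he', -, he'1, hCe⟩ := hI {e, (θ g : A) * e * ((θ g)⁻¹ : Aˣ)} (by simp) (by
    rintro _ (rfl | rfl)
    · exact heI
    · exact hr _ _ (hl _ _ heI))
  have hcl : Subgroup.closure (E ∪ (fun x => g * x * g⁻¹) '' E) ≤ N := by
    rw [Subgroup.closure_le]
    rintro y (hy | ⟨z, hz, rfl⟩)
    · exact hEN hy
    · exact Subgroup.Normal.conj_mem inferInstance z (hEN hz) g
  obtain ⟨h1, h2⟩ := he'1 e (Or.inl rfl)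
  obtain ⟨h3, h4⟩ := he'1 _ (Or.inr rfl)
  obtain ⟨f, p, hfi, hfp⟩ := lemT θ E g e e' he he' (fun x hx => he1 _ ⟨x, hx, rfl⟩) h1 h2 h3 h4
    (fun h hh => hf h (hcl hh))
  exact ⟨_, inferInstance, f, p, hCe, hfi, hfp⟩

/-- the extension theorem for finitary groups -/
theorem fin_ext (hC : ClosedE C) {k K V : Type} [Field k] [Field K] [Algebra k K]
    [Algebra.IsAlgebraic k K] [AddCommGroup V] [Module k V] [Module K V] [IsScalarTower k K V]
    (hGL : ∀ n : ℕ, C (GL (Fin n) k))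
    (G : Type) [Group G] (N : Subgroup G) [N.Normal] (hQ : C (G ⧸ N))
    (σ : G →* (K ≃ₐ[k] K)) (ρ : G →* (V ≃ₗ[k] V)) (hs : ∀ (g : G) (a : K) (v : V),
      ρ g (a • v) = σ g a • ρ g v) (hσ : ∀ n ∈ N, σ n = 1)
    (hfin : ∀ n ∈ N, FiniteDimensional K (Submodule.span K (Set.range fun v => ρ n v - v)))
    (hf : ∀ n ∈ N, (∀ v, ρ n v = v) → n = 1) : C G := by
  refine Pool.Agent.R630.FJ.crit C hC G N hQ fun g E hE hEN => ?_
  have hcl : Subgroup.closure (E ∪ (fun x => g * x * g⁻¹) '' E) ≤ N := by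
    rw [Subgroup.closure_le]
    rintro y (hy | ⟨z, hz, rfl⟩)
    · exact hEN hy
    · exact Subgroup.Normal.conj_mem inferInstance z (hEN hz) g
  obtain ⟨m, f, p, hfi, hfp⟩ := lemS (σ := σ) (ρ := ρ) hs E hE g (fun x hx => hσ x (hEN hx))
    (fun x hx => hfin x (hEN hx)) (fun h hh => hf h (hcl hh))
  exact ⟨_, inferInstance, f, p, hGL m, hfi, hfp⟩

end Pool.Agent.W5h90.FL
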