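import Pool.Agent.W5h90.FL.Fin

/-!
# The general linear groups of a ring with an ideal with local units
-/

set_option autoImplicit false

namespace Pool.Agent.W5h90.FL

open Pool.Agent.Y110.FJ
open Pool.Agent.Y462.SS (Closed)

variable {C : ∀ (G : Type) [Group G], Prop}

section

variable {A : Type} [Ring A] {n : ℕ}

/-- the scalar matrix of an idempotent -/
theorem idem_diag {e : A} (he : IsIdempotentElem e) :
    IsIdempotentElem (Matrix.diagonal fun _ : Fin n => e) := by
  unfold IsIdempotentElem
  rw [Matrix.diagonal_mul_diagonal]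
  simp only [he.eq]

theorem corner_entry {e : A} (he : IsIdempotentElem e) (M : (idem_diag (n := n) he).Corner)
    (i j : Fin n) : e * M.1 i j = M.1 i j ∧ M.1 i j * e = M.1 i j := by
  obtain ⟨h1, h2⟩ := (Subsemigroup.mem_corner_iff (idem_diag (n := n) he)).1 M.2
  constructor
  · have := congrFun (congrFun h1 i) j
    rwa [Matrix.diagonal_mul] at this
  · have := congrFun (congrFun h2 i) j
    rwa [Matrix.mul_diagonal] at this

/-- the corner of a scalar matrix consists of matrices over the corner -/
def cornerHom {e : A} (he : IsIdempotentElem e) :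
    (idem_diag (n := n) he).Corner →+* Matrix (Fin n) (Fin n) he.Corner where
  toFun M := Matrix.of fun i j => mkC he (M.1 i j) (corner_entry he M i j)
  map_one' := by
    ext i j
    apply Subtype.ext
    show (Matrix.diagonal fun _ : Fin n => e) i j = _
    by_cases h : i = j
    · subst h
      rw [Matrix.diagonal_apply_eq, Matrix.one_apply_eq]
      rfl
    · rw [Matrix.diagonal_apply_ne _ h, Matrix.one_apply_ne h]
      rfl
  map_mul' M M' := by
    ext i j
    apply Subtype.ext
    show (M.1 * M'.1) i j = _
    rw [Matrix.mul_apply, Matrix.mul_apply]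
    have hs : ∀ (s : Finset (Fin n)) (f : Fin n → he.Corner), (∑ x ∈ s, f x).1 = ∑ x ∈ s, (f x).1 := by
      classical
      intro s f
      induction s using Finset.induction_on with
      | empty => rfl
      | insert a s ha ih => rw [Finset.sum_insert ha, Finset.sum_insert ha, val_add, ih]
    rw [hs]
    rfl
  map_zero' := by
    ext i j
    rfl
  map_add' M M' := by
    ext i j
    rfl

theorem cornerHom_inj {e : A} (he : IsIdempotentElem e) :
    Function.Injective (cornerHom (n := n) he) := by
  intro M M' h
  apply Subtype.ext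
  ext i j
  have h1 := congrFun (congrFun h i) j
  exact congrArg Subtype.val h1

end

/-- **general linear groups** -/
theorem gl_ext (hC : ClosedE C) {A : Type} [Ring A] (I : Ideal A) [I.IsTwoSided]
    (hI : ∀ F : Set A, F.Finite → F ⊆ I → ∃ (e : A) (he : IsIdempotentElem e), e ∈ I ∧
      (∀ x ∈ F, e * x = x ∧ x * e = x) ∧ ∀ m : ℕ, C (Matrix (Fin m) (Fin m) he.Corner)ˣ)
    (hQ : ∀ m : ℕ, C (Matrix (Fin m) (Fin m) (A ⧸ I))ˣ) (n : ℕ) : C (Matrix (Fin n) (Fin n) A)ˣ := by
  classical
  let q : (Matrix (Fin n) (Fin n) A)ˣ →* (Matrix (Fin n) (Fin n) (A ⧸ I))ˣ :=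
    Units.map ((Ideal.Quotient.mk I).mapMatrix : Matrix (Fin n) (Fin n) A →+* _).toMonoidHom
  refine ring_ext hC (A := Matrix (Fin n) (Fin n) A) {M | ∀ i j, M i j ∈ I} ?_ ?_ ?_
    (Matrix (Fin n) (Fin n) A)ˣ q.ker ?_ (MonoidHom.id _) ?_ (fun n _ h => h)
  · intro X M hM i j
    rw [Matrix.mul_apply]
    exact I.sum_mem fun k _ => I.mul_mem_left _ (hM k j)
  · intro X M hM i j
    rw [Matrix.mul_apply]
    exact I.sum_mem fun k _ => I.mul_mem_right _ (hM i k)
  · intro F hF hFI
    obtain ⟨e, he, heI, he1, hCe⟩ := hI (⋃ M ∈ F, Set.range fun p : Fin n × Fin n => M p.1 p.2)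
      (hF.biUnion fun M _ => Set.finite_range _) (by
        intro x hx
        obtain ⟨M, hM, p, rfl⟩ := Set.mem_iUnion₂.1 hx
        exact hFI hM p.1 p.2)
    refine ⟨Matrix.diagonal fun _ => e, idem_diag he, ?_, ?_, ?_⟩
    · intro i j
      by_cases h : i = j
      · subst h
        rw [Matrix.diagonal_apply_eq]
        exact heI
      · rw [Matrix.diagonal_apply_ne _ h]
        exact I.zero_mem
    · intro M hM
      have h1 : ∀ i j, e * M i j = M i j ∧ M i j * e = M i j := fun i j =>
        he1 _ (Set.mem_iUnion₂.2 ⟨M, hM, (i, j), rfl⟩)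
      constructor
      · ext i j
        rw [Matrix.diagonal_mul]
        exact (h1 i j).1
      · ext i j
        rw [Matrix.mul_diagonal]
        exact (h1 i j).2
    · let φ : Matrix (Fin 2) (Fin 2) (idem_diag (n := n) he).Corner →+*
          Matrix (Fin (2 * n)) (Fin (2 * n)) he.Corner :=
        ((Matrix.reindexRingEquiv he.Corner finProdFinEquiv).toRingHom.comp
          (Matrix.compRingEquiv (Fin 2) (Fin n) he.Corner).toRingHom).comp
          (cornerHom (n := n) he).mapMatrix
      have hφ : Function.Injective φ := by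
        intro M M' h
        have h0 : (Matrix.reindexRingEquiv he.Corner finProdFinEquiv)
            ((Matrix.compRingEquiv (Fin 2) (Fin n) he.Corner)
              (M.map (cornerHom (n := n) he))) =
            (Matrix.reindexRingEquiv he.Corner finProdFinEquiv)
            ((Matrix.compRingEquiv (Fin 2) (Fin n) he.Corner)
              (M'.map (cornerHom (n := n) he))) := h
        have h1 := (Matrix.compRingEquiv (Fin 2) (Fin n) he.Corner).injective
          ((Matrix.reindexRingEquiv he.Corner finProdFinEquiv).injective h0)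
        ext i j : 2
        exact cornerHom_inj he (congrFun (congrFun h1 i) j)
      exact hC.base.of_injective _ _ (Units.map φ.toMonoidHom) (Units.map_injective hφ) (hCe _)
  · exact hC.base.of_injective _ _ (QuotientGroup.kerLift q) (QuotientGroup.kerLift_injective q) (hQ n)
  · intro u hu i j
    have h1 : q u = 1 := hu
    have h2 := congrArg (fun v : (Matrix (Fin n) (Fin n) (A ⧸ I))ˣ => v.val i j) h1
    have h3 : Ideal.Quotient.mk I (u.val i j) =
        Ideal.Quotient.mk I ((1 : Matrix (Fin n) (Fin n) A) i j) := by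
      refine Eq.trans h2 ?_
      by_cases h : i = j
      · subst h
        rw [Matrix.one_apply_eq]
        show (1 : Matrix (Fin n) (Fin n) (A ⧸ I)) i i = _
        rw [Matrix.one_apply_eq, map_one]
      · rw [Matrix.one_apply_ne h]
        show (1 : Matrix (Fin n) (Fin n) (A ⧸ I)) i j = _
        rw [Matrix.one_apply_ne h, map_zero]
    exact Ideal.Quotient.eq.1 h3

end Pool.Agent.W5h90.FL
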