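import Pool.Agent.R630.FJ.Inn

/-!
# Realization of conjugations on finitely many linear transformations

`H` acts on a vector space over `k`; the elements of `E` are the identity on a complement of a finite
dimensional subspace, and `g` is any element of `H`.
-/

set_option autoImplicit false

namespace Pool.Agent.W5h90.FL

open Pool.Agent.Y110.FJ

section lemR

variable {k V H : Type} [Field k] [AddCommGroup V] [Module k V] [Group H]
  (ρ : H →* (V ≃ₗ[k] V))

/-- the stabilizer of a subspace -/
def stab (U : Submodule k V) : Subgroup H where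
  carrier := {h | ∀ u, u ∈ U ↔ ρ h u ∈ U}
  one_mem' := fun u => by rw [map_one]; rfl
  mul_mem' := by
    intro a b ha hb u
    rw [map_mul, LinearEquiv.mul_apply]
    exact (hb u).trans (ha _)
  inv_mem' := by
    intro a ha u
    have h1 : ρ a (ρ a⁻¹ u) = u := by
      rw [← LinearEquiv.mul_apply, ← map_mul, mul_inv_cancel, map_one]; rfl
    rw [ha (ρ a⁻¹ u), h1]

/-- an element which maps a finite dimensional subspace to itself is in the stabilizer -/
theorem mem_stab (U : Submodule k V) [FiniteDimensional k U] (h : H) (hh : ∀ u ∈ U, ρ h u ∈ U) :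
    h ∈ stab ρ U := by
  intro u
  refine ⟨hh u, fun hu => ?_⟩
  let T : U →ₗ[k] U := (ρ h : V →ₗ[k] V).restrict hh
  have hT : Function.Injective T := by
    intro a b hab
    apply Subtype.ext
    apply (ρ h).injective
    exact congrArg Subtype.val hab
  obtain ⟨w, hw⟩ := (LinearMap.injective_iff_surjective.1 hT) ⟨_, hu⟩
  have h2 : ρ h w = ρ h u := congrArg Subtype.val hw
  rw [← (ρ h).injective h2]
  exact w.2

/-- the restriction to a subspace -/
def res (U : Submodule k V) : stab ρ U →* (U ≃ₗ[k] U) where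
  toFun h :=
    { toFun := fun u => ⟨ρ h u, (h.2 u).1 u.2⟩
      invFun := fun u => ⟨ρ (h⁻¹ : stab ρ U) u, ((h⁻¹ : stab ρ U).2 u).1 u.2⟩
      map_add' := fun u v => Subtype.ext (map_add _ _ _)
      map_smul' := fun a v => Subtype.ext (map_smul _ _ _)
      left_inv := fun u => Subtype.ext (by
        show ρ (h⁻¹ : H) (ρ h u) = u
        rw [← LinearEquiv.mul_apply, ← map_mul, inv_mul_cancel, map_one]; rfl)
      right_inv := fun u => Subtype.ext (by
        show ρ h (ρ (h⁻¹ : H) u) = u
        rw [← LinearEquiv.mul_apply, ← map_mul, mul_inv_cancel, map_one]; rfl) }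
  map_one' := by
    ext u
    show ρ 1 (u : V) = u
    rw [map_one]; rfl
  map_mul' a b := by
    ext u
    show ρ (a * b) (u : V) = ρ a (ρ b u)
    rw [map_mul, LinearEquiv.mul_apply]

theorem res_apply (U : Submodule k V) (h : stab ρ U) (u : U) : ((res ρ U h u : U) : V) = ρ h u := rfl

/-- automorphisms of a finite dimensional space as matrices -/
theorem toGL (U : Type) [AddCommGroup U] [Module k U] [FiniteDimensional k U] :
    Nonempty ((U ≃ₗ[k] U) ≃* GL (Fin (Module.finrank k U)) k) := by
  let b := Module.finBasis k U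
  let e1 : (U ≃ₗ[k] U) ≃* LinearMap.GeneralLinearGroup k U :=
    (LinearMap.GeneralLinearGroup.generalLinearEquiv k U).symm
  let e2 : Module.End k U ≃* Matrix (Fin (Module.finrank k U)) (Fin (Module.finrank k U)) k :=
    (LinearMap.toMatrixAlgEquiv b).toMulEquiv
  exact ⟨e1.trans (Units.mapEquiv e2)⟩

/-- **realization** -/
theorem lemR (E : Set H) (g : H) (A B B' : Submodule k V) [FiniteDimensional k A]
    [FiniteDimensional k B]
    (h1 : Disjoint A B) (h2 : Disjoint (A.map (ρ g : V →ₗ[k] V)) B')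
    (h3 : A ⊔ B = A.map (ρ g : V →ₗ[k] V) ⊔ B')
    (hA : ∀ x ∈ E, ∀ a ∈ A, ρ x a ∈ A) (hB : ∀ x ∈ E, ∀ b ∈ B, ρ x b = b)
    (hB' : ∀ x ∈ E, ∀ b ∈ B', ρ (g * x * g⁻¹) b = b)
    (hf : ∀ h ∈ Subgroup.closure (E ∪ (fun x => g * x * g⁻¹) '' E), (∀ u ∈ A ⊔ B, ρ h u = u) → h = 1) :
    ∃ (m : ℕ) (f : ↥(Subgroup.closure (E ∪ (fun x => g * x * g⁻¹) '' E)) →* GL (Fin m) k)
      (p : GL (Fin m) k), Function.Injective f ∧
      ∀ x y : ↥(Subgroup.closure (E ∪ (fun x => g * x * g⁻¹) '' E)),
        (x : H) ∈ E → (y : H) = g * x * g⁻¹ → f y = p * f x * p⁻¹ := by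
  classical
  obtain ⟨gA, hgA⟩ : ∃ W : Submodule k V, W = A.map (ρ g : V →ₗ[k] V) := ⟨_, rfl⟩
  rw [← hgA] at h2 h3
  let U : Submodule k V := A ⊔ B
  have hU : U = gA ⊔ B' := h3
  haveI : FiniteDimensional k U := Submodule.finiteDimensional_sup A B
  have hgfin : FiniteDimensional k gA := by rw [hgA]; infer_instance
  have hB'U : B' ≤ U := by rw [hU]; exact le_sup_right
  have hgAU : gA ≤ U := by rw [hU]; exact le_sup_left
  haveI hB'fin : FiniteDimensional k B' := Submodule.finiteDimensional_of_le hB'U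
  -- the stabilizer contains `E` and its conjugate
  have hgx : ∀ x (v : V), ρ (g * x * g⁻¹) (ρ g v) = ρ g (ρ x v) := by
    intro x v
    rw [← LinearEquiv.mul_apply, ← LinearEquiv.mul_apply, ← map_mul, ← map_mul]
    congr 2
    group
  have hEU : E ∪ (fun x => g * x * g⁻¹) '' E ⊆ stab ρ U := by
    rintro y (hy | ⟨x, hx, rfl⟩)
    · refine mem_stab ρ U y fun u hu => ?_
      obtain ⟨a, ha, b, hb, rfl⟩ := Submodule.mem_sup.1 hu
      rw [map_add, hB y hy b hb]
      exact Submodule.mem_sup.2 ⟨_, hA y hy a ha, b, hb, rfl⟩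
    · refine mem_stab ρ U _ fun u hu => ?_
      rw [hU] at hu
      obtain ⟨a, ha, b, hb, rfl⟩ := Submodule.mem_sup.1 hu
      rw [hgA] at ha
      obtain ⟨a', ha', rfl⟩ := Submodule.mem_map.1 ha
      rw [map_add, hB' x hx b hb, hU]
      refine Submodule.mem_sup.2 ⟨_, ?_, b, hb, rfl⟩
      show ρ (g * x * g⁻¹) (ρ g a') ∈ gA
      rw [hgx, hgA]
      exact Submodule.mem_map.2 ⟨_, hA x hx a' ha', rfl⟩
  have hle : Subgroup.closure (E ∪ (fun x => g * x * g⁻¹) '' E) ≤ stab ρ U :=
    (Subgroup.closure_le _).2 hEU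
  -- the decompositions
  let AU : Submodule k U := A.comap U.subtype
  let BU : Submodule k U := B.comap U.subtype
  let gAU : Submodule k U := gA.comap U.subtype
  let BU' : Submodule k U := B'.comap U.subtype
  have hc1 : IsCompl AU BU := by
    constructor
    · rw [Submodule.disjoint_def]
      intro u hu hv
      exact Subtype.ext ((Submodule.disjoint_def.1 h1) u hu hv)
    · rw [codisjoint_iff, eq_top_iff]
      rintro ⟨u, hu⟩ -
      obtain ⟨a, ha, b, hb, rfl⟩ := Submodule.mem_sup.1 hu
      exact Submodule.mem_sup.2 ⟨⟨a, Submodule.mem_sup_left ha⟩, ha,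
        ⟨b, Submodule.mem_sup_right hb⟩, hb, rfl⟩
  have hc2 : IsCompl gAU BU' := by
    constructor
    · rw [Submodule.disjoint_def]
      intro u hu hv
      exact Subtype.ext ((Submodule.disjoint_def.1 h2) u hu hv)
    · rw [codisjoint_iff, eq_top_iff]
      rintro ⟨u, hu⟩ -
      have hu' := hu
      rw [hU] at hu'
      obtain ⟨a, ha, b, hb, hab⟩ := Submodule.mem_sup.1 hu'
      exact Submodule.mem_sup.2 ⟨⟨a, hgAU ha⟩, ha, ⟨b, hB'U hb⟩, hb, Subtype.ext hab⟩
  -- the map on the first summand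
  let φA : AU ≃ₗ[k] gAU :=
    { toFun := fun a => ⟨⟨ρ g (a : U), hgAU (by rw [hgA]; exact Submodule.mem_map.2 ⟨_, a.2, rfl⟩)⟩,
        show ρ g ((a : U) : V) ∈ gA by rw [hgA]; exact Submodule.mem_map.2 ⟨_, a.2, rfl⟩⟩
      invFun := fun a => ⟨⟨(ρ g).symm (a : U), Submodule.mem_sup_left (by
          have h5 : ((a : U) : V) ∈ gA := a.2
          rw [hgA] at h5
          obtain ⟨a', ha', h6⟩ := Submodule.mem_map.1 h5
          rw [← h6]
          exact (show (ρ g).symm (ρ g a') ∈ A by rw [LinearEquiv.symm_apply_apply]; exact ha'))⟩,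
        show (ρ g).symm ((a : U) : V) ∈ A by
          have h5 : ((a : U) : V) ∈ gA := a.2
          rw [hgA] at h5
          obtain ⟨a', ha', h6⟩ := Submodule.mem_map.1 h5
          rw [← h6]
          exact (show (ρ g).symm (ρ g a') ∈ A by rw [LinearEquiv.symm_apply_apply]; exact ha')⟩
      map_add' := fun a b => Subtype.ext (Subtype.ext (map_add _ _ _))
      map_smul' := fun a b => Subtype.ext (Subtype.ext (map_smul _ _ _))
      left_inv := fun a => Subtype.ext (Subtype.ext ((ρ g).symm_apply_apply _))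
      right_inv := fun a => Subtype.ext (Subtype.ext ((ρ g).apply_symm_apply _)) }
  have hrank : Module.finrank k BU = Module.finrank k BU' := by
    have e1 := Submodule.finrank_add_eq_of_isCompl hc1
    have e2 := Submodule.finrank_add_eq_of_isCompl hc2
    have e3 := φA.finrank_eq
    omega
  let φB : BU ≃ₗ[k] BU' := LinearEquiv.ofFinrankEq _ _ hrank
  let p0 : U ≃ₗ[k] U := (Submodule.prodEquivOfIsCompl AU BU hc1).symm.trans
    ((φA.prodCongr φB).trans (Submodule.prodEquivOfIsCompl gAU BU' hc2))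
  have hp0A : ∀ a : AU, p0 (a : U) = (φA a : U) := by
    intro a
    show (Submodule.prodEquivOfIsCompl gAU BU' hc2)
      ((φA.prodCongr φB) ((Submodule.prodEquivOfIsCompl AU BU hc1).symm (a : U))) = _
    rw [Submodule.prodEquivOfIsCompl_symm_apply_left]
    simp
  have hp0B : ∀ b : BU, p0 (b : U) = (φB b : U) := by
    intro b
    show (Submodule.prodEquivOfIsCompl gAU BU' hc2)
      ((φA.prodCongr φB) ((Submodule.prodEquivOfIsCompl AU BU hc1).symm (b : U))) = _
    rw [Submodule.prodEquivOfIsCompl_symm_apply_right]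
    simp
  obtain ⟨e⟩ := toGL (k := k) U
  refine ⟨Module.finrank k U, e.toMonoidHom.comp ((res ρ U).comp (Subgroup.inclusion hle)), e p0, ?_, ?_⟩
  · rw [injective_iff_map_eq_one]
    intro x hx
    have h5 : res ρ U (Subgroup.inclusion hle x) = 1 := e.injective (by rw [map_one]; exact hx)
    apply Subtype.ext
    refine hf x x.2 fun u hu => ?_
    have h6 := congrArg (fun T : U ≃ₗ[k] U => ((T ⟨u, hu⟩ : U) : V)) h5
    exact h6
  · intro x y hx hy
    have h5 : (res ρ U) (Subgroup.inclusion hle y) * p0 = p0 * (res ρ U) (Subgroup.inclusion hle x) := by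
      ext1 u
      rw [LinearEquiv.mul_apply, LinearEquiv.mul_apply]
      obtain ⟨⟨a, b⟩, hab⟩ := (Submodule.prodEquivOfIsCompl AU BU hc1).surjective u
      have hab' : u = (a : U) + (b : U) := by rw [← hab]; simp
      rw [hab', map_add, map_add, map_add, map_add]
      congr 1
      · -- the first summand
        have hxa : ((res ρ U) (Subgroup.inclusion hle x) (a : U) : U) ∈ AU := hA x hx _ a.2
        have e1 := hp0A ⟨_, hxa⟩
        rw [hp0A a]
        show _ = p0 ((⟨_, hxa⟩ : AU) : U)
        rw [e1]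
        apply Subtype.ext
        show ρ (y : H) (ρ g ((a : U) : V)) = ρ g (ρ (x : H) ((a : U) : V))
        rw [hy, hgx]
      · have hxb : (res ρ U) (Subgroup.inclusion hle x) (b : U) = (b : U) := by
          apply Subtype.ext
          show ρ (x : H) ((b : U) : V) = ((b : U) : V)
          exact hB x hx _ b.2
        rw [hxb, hp0B b]
        apply Subtype.ext
        show ρ (y : H) (((φB b : BU') : U) : V) = _
        rw [hy]
        exact hB' x hx _ (φB b).2
    show e ((res ρ U) (Subgroup.inclusion hle y)) = e p0 * e ((res ρ U) (Subgroup.inclusion hle x)) * (e p0)⁻¹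
    rw [← map_inv, ← map_mul, ← map_mul, ← h5, mul_assoc, mul_inv_cancel, mul_one]

end lemR

end Pool.Agent.W5h90.FL
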