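import Pool.Agent.W5h90.FL.R

/-!
# Finitary semilinear transformations: lattices over finite extensions
-/

set_option autoImplicit false

namespace Pool.Agent.W5h90.FL

open Pool.Agent.Y110.FJ

/-- finite sets of algebraic elements are contained in a finite extension which is stable under all
automorphisms -/
theorem stable_field (k K : Type) [Field k] [Field K] [Algebra k K] [Algebra.IsAlgebraic k K]
    (S : Set K) (hS : S.Finite) :
    ∃ L : IntermediateField k K, FiniteDimensional k L ∧ S ⊆ L ∧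
      ∀ τ : K ≃ₐ[k] K, ∀ a ∈ L, τ a ∈ L := by
  classical
  let S' : Set K := ⋃ a ∈ S, (minpoly k a).rootSet K
  have hfin : S'.Finite := hS.biUnion fun a _ => Polynomial.rootSet_finite _ _
  have hsub : S ⊆ S' := fun a ha => Set.mem_biUnion ha (by
    rw [Polynomial.mem_rootSet]
    exact ⟨minpoly.ne_zero (Algebra.IsIntegral.isIntegral a), minpoly.aeval _ _⟩)
  refine ⟨IntermediateField.adjoin k S', ?_, hsub.trans (IntermediateField.subset_adjoin k S'), ?_⟩
  · haveI : Finite S' := hfin
    exact IntermediateField.finiteDimensional_adjoin fun x _ => Algebra.IsIntegral.isIntegral x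
  · intro τ a ha
    have h1 : (IntermediateField.adjoin k S').map (τ : K →ₐ[k] K) ≤ IntermediateField.adjoin k S' := by
      rw [IntermediateField.adjoin_map]
      refine IntermediateField.adjoin.mono k _ _ ?_
      rintro _ ⟨b, hb, rfl⟩
      obtain ⟨c, hc, hbc⟩ := Set.mem_iUnion₂.1 hb
      refine Set.mem_biUnion hc ?_
      rw [Polynomial.mem_rootSet] at hbc ⊢
      refine ⟨hbc.1, ?_⟩
      rw [Polynomial.aeval_algHom_apply, hbc.2, map_zero]
    exact h1 ⟨a, ha, rfl⟩

section

variable {K V : Type} [Field K] [AddCommGroup V] [Module K V]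

/-- a finite dimensional supplement of the kernel -/
theorem suppl {M : Type} [AddCommGroup M] [Module K M] [FiniteDimensional K M] (Φ : V →ₗ[K] M) :
    ∃ W : Submodule K V, FiniteDimensional K W ∧ W ⊔ LinearMap.ker Φ = ⊤ := by
  obtain ⟨W, hW⟩ := Submodule.exists_isCompl (LinearMap.ker Φ)
  refine ⟨W, ?_, ?_⟩
  · refine FiniteDimensional.of_injective (Φ.comp W.subtype) ?_
    rw [← LinearMap.ker_eq_bot, LinearMap.ker_comp]
    rw [eq_bot_iff]
    intro w hw
    have h1 : (w : V) ∈ LinearMap.ker Φ ⊓ W := ⟨hw, w.2⟩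
    rw [hW.inf_eq_bot] at h1
    exact Subtype.ext h1
  · rw [sup_comm]
    exact hW.sup_eq_top

/-- a complement inside a subspace of finite codimension -/
theorem compl_in (U₀ KE : Submodule K V) (h : U₀ ⊔ KE = ⊤) : ∃ K₀ ≤ KE, IsCompl U₀ K₀ := by
  obtain ⟨W, hW⟩ := Submodule.exists_isCompl (U₀.comap KE.subtype)
  refine ⟨W.map KE.subtype, Submodule.map_subtype_le KE W, ?_, ?_⟩
  · rw [Submodule.disjoint_def]
    intro v hv hv'
    obtain ⟨w, hw, rfl⟩ := Submodule.mem_map.1 hv'
    have h1 : w ∈ U₀.comap KE.subtype ⊓ W := ⟨hv, hw⟩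
    rw [hW.inf_eq_bot] at h1
    rw [(Submodule.mem_bot K).1 h1]
    rfl
  · rw [codisjoint_iff, eq_top_iff]
    intro v _
    have h1 : v ∈ U₀ ⊔ KE := by rw [h]; trivial
    obtain ⟨u, hu, w, hw, rfl⟩ := Submodule.mem_sup.1 h1
    have h2 : (⟨w, hw⟩ : KE) ∈ U₀.comap KE.subtype ⊔ W := by rw [hW.sup_eq_top]; trivial
    obtain ⟨a, ha, b, hb, hab⟩ := Submodule.mem_sup.1 h2
    have h3 : (a : V) + b = w := congrArg Subtype.val hab
    refine Submodule.mem_sup.2 ⟨u + a, U₀.add_mem hu ha, b, ⟨b, hb, rfl⟩, ?_⟩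
    rw [add_assoc, h3]

/-- finite spanning families -/
theorem span_fin (W : Submodule K V) [FiniteDimensional K W] :
    ∃ (n : ℕ) (b : Fin n → V), Submodule.span K (Set.range b) = W := by
  obtain ⟨s, hs⟩ := (Submodule.fg_iff_finiteDimensional W).2 inferInstance
  refine ⟨s.card, fun i => (s.equivFin.symm i : V), ?_⟩
  have h1 : Set.range (fun i => ((s.equivFin.symm i : s) : V)) = (s : Set V) := by
    ext v
    constructor
    · rintro ⟨i, rfl⟩
      exact (s.equivFin.symm i).2
    · intro hv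
      exact ⟨s.equivFin ⟨v, hv⟩, by simp⟩
  rw [h1, hs]

end

section lat

variable {k K V : Type} [Field k] [Field K] [Algebra k K] [AddCommGroup V] [Module k V] [Module K V]
  [IsScalarTower k K V]

/-- the `L`-span of a finite family, as a subspace over `k` -/
def lat (L : IntermediateField k K) {n : ℕ} (b : Fin n → V) : Submodule k V :=
  LinearMap.range (∑ i, ((LinearMap.toSpanSingleton K V (b i)).restrictScalars k).comp
    (L.val.toLinearMap.comp (LinearMap.proj (R := k) (φ := fun _ : Fin n => L) i)))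

theorem mem_lat (L : IntermediateField k K) {n : ℕ} (b : Fin n → V) (v : V) :
    v ∈ lat L b ↔ ∃ c : Fin n → K, (∀ i, c i ∈ L) ∧ v = ∑ i, c i • b i := by
  unfold lat
  rw [LinearMap.mem_range]
  constructor
  · rintro ⟨c, rfl⟩
    refine ⟨fun i => (c i : K), fun i => (c i).2, ?_⟩
    rw [LinearMap.sum_apply]
    rfl
  · rintro ⟨c, hc, rfl⟩
    refine ⟨fun i => ⟨c i, hc i⟩, ?_⟩
    rw [LinearMap.sum_apply]
    rfl

theorem lat_fin (L : IntermediateField k K) [FiniteDimensional k L] {n : ℕ} (b : Fin n → V) :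
    FiniteDimensional k (lat L b) := by
  unfold lat
  infer_instance

theorem lat_sum (L : IntermediateField k K) {n : ℕ} (b : Fin n → V) {m : ℕ} (c : Fin m → K)
    (hc : ∀ i, c i ∈ L) (v : Fin m → V) (hv : ∀ i, v i ∈ lat L b) : ∑ i, c i • v i ∈ lat L b := by
  refine Submodule.sum_mem _ fun i _ => ?_
  obtain ⟨d, hd, h1⟩ := (mem_lat L b _).1 (hv i)
  rw [h1, Finset.smul_sum]
  exact (mem_lat L b _).2 ⟨fun j => c i * d j, fun j => L.mul_mem (hc i) (hd j), by
    refine Finset.sum_congr rfl fun j _ => ?_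
    rw [smul_smul]⟩

theorem lat_gen (L : IntermediateField k K) {n : ℕ} (b : Fin n → V) (i : Fin n) : b i ∈ lat L b := by
  classical
  refine (mem_lat L b _).2 ⟨fun j => if j = i then 1 else 0, fun j => ?_, ?_⟩
  · show (if j = i then (1 : K) else 0) ∈ L
    split_ifs
    · exact L.one_mem
    · exact L.zero_mem
  · simp

theorem lat_le (L : IntermediateField k K) {n : ℕ} (b : Fin n → V) {v : V} (hv : v ∈ lat L b) :
    v ∈ Submodule.span K (Set.range b) := by
  obtain ⟨c, _, rfl⟩ := (mem_lat L b _).1 hv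
  exact Submodule.sum_mem _ fun i _ => Submodule.smul_mem _ _ (Submodule.subset_span ⟨i, rfl⟩)

/-- coefficients -/
theorem exists_coef {n m : ℕ} (b : Fin n → V) (w : Fin m → V)
    (hw : ∀ j, w j ∈ Submodule.span K (Set.range b)) :
    ∃ c : Fin m → Fin n → K, ∀ j, w j = ∑ i, c j i • b i := by
  have h1 : ∀ j, ∃ c : Fin n → K, w j = ∑ i, c i • b i := fun j => by
    obtain ⟨c, hc⟩ := (Submodule.mem_span_range_iff_exists_fun K).1 (hw j)
    exact ⟨c, hc.symm⟩
  choose c hc using h1
  exact ⟨c, hc⟩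

end lat

end Pool.Agent.W5h90.FL
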