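import Pool.Agent.R630.FJ.Inn

/-!
# Realization of conjugations on units supported on a corner
-/

set_option autoImplicit false

namespace Pool.Agent.W5h90.FL

open Pool.Agent.Y110.FJ

section ring

variable {A : Type} [Ring A]

/-- the units `u` such that `u - 1` is in `eAe` -/
def supp {e : A} (he : IsIdempotentElem e) : Subgroup Aˣ where
  carrier := {u | e * ((u : A) - 1) = u - 1 ∧ ((u : A) - 1) * e = u - 1}
  one_mem' := by simp
  mul_mem' := by
    rintro a b ⟨h1, h2⟩ ⟨h3, h4⟩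
    have h5 : (((a * b : Aˣ) : A) - 1) = ((a : A) - 1) * b + (b - 1) := by
      rw [Units.val_mul]; noncomm_ring
    have h6 : (((a * b : Aˣ) : A) - 1) = (a : A) * (b - 1) + (a - 1) := by
      rw [Units.val_mul]; noncomm_ring
    constructor
    · rw [h5, mul_add, h3, ← mul_assoc, h1]
    · rw [h6, add_mul, h2, mul_assoc, h4]
  inv_mem' := by
    rintro a ⟨h1, h2⟩
    have h5 : (((a⁻¹ : Aˣ) : A) - 1) = -(((a : A) - 1) * ((a⁻¹ : Aˣ) : A)) := by
      rw [sub_mul, Units.mul_inv, one_mul]; noncomm_ring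
    have h6 : (((a⁻¹ : Aˣ) : A) - 1) = -(((a⁻¹ : Aˣ) : A) * ((a : A) - 1)) := by
      rw [mul_sub, Units.inv_mul, mul_one]; noncomm_ring
    constructor
    · show e * (((a⁻¹ : Aˣ) : A) - 1) = ((a⁻¹ : Aˣ) : A) - 1
      rw [h5, mul_neg, ← mul_assoc, h1]
    · show (((a⁻¹ : Aˣ) : A) - 1) * e = ((a⁻¹ : Aˣ) : A) - 1
      rw [h6, neg_mul, mul_assoc, h2]

theorem mem_supp {e : A} (he : IsIdempotentElem e) (u : Aˣ) : u ∈ supp he ↔
    e * ((u : A) - 1) = u - 1 ∧ ((u : A) - 1) * e = u - 1 := Iff.rfl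

/-- elements of a corner -/
def mkC {e : A} (he : IsIdempotentElem e) (x : A) (hx : e * x = x ∧ x * e = x) : he.Corner :=
  ⟨x, (Subsemigroup.mem_corner_iff he).2 hx⟩

theorem val_mk {e : A} (he : IsIdempotentElem e) (x : A) (hx : e * x = x ∧ x * e = x) :
    (mkC he x hx).1 = x := rfl

theorem val_mul {e : A} (he : IsIdempotentElem e) (x y : he.Corner) : (x * y).1 = x.1 * y.1 := rfl
theorem val_add {e : A} (he : IsIdempotentElem e) (x y : he.Corner) : (x + y).1 = x.1 + y.1 := rfl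
theorem val_one {e : A} (he : IsIdempotentElem e) : (1 : he.Corner).1 = e := rfl
theorem val_zero {e : A} (he : IsIdempotentElem e) : (0 : he.Corner).1 = 0 := rfl

/-- `e + (u - 1)` -/
theorem cut_mem {e : A} (he : IsIdempotentElem e) (u : supp he) :
    e * (e + ((u : Aˣ) : A) - 1) = e + ((u : Aˣ) : A) - 1 ∧
      (e + ((u : Aˣ) : A) - 1) * e = e + ((u : Aˣ) : A) - 1 := by
  obtain ⟨h1, h2⟩ := (mem_supp he u).1 u.2
  rw [add_sub_assoc]
  exact ⟨by rw [mul_add, h1, he.eq], by rw [add_mul, h2, he.eq]⟩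

/-- the unit of the corner -/
def cut {e : A} (he : IsIdempotentElem e) : supp he →* he.Corner where
  toFun u := mkC he _ (cut_mem he u)
  map_one' := Subtype.ext (by
    show e + ((1 : Aˣ) : A) - 1 = e
    simp)
  map_mul' u v := Subtype.ext (by
    obtain ⟨h1, h2⟩ := (mem_supp he u).1 u.2
    obtain ⟨h3, h4⟩ := (mem_supp he v).1 v.2
    show e + (((u : Aˣ) * (v : Aˣ) : Aˣ) : A) - 1 =
      (e + ((u : Aˣ) : A) - 1) * (e + ((v : Aˣ) : A) - 1)
    rw [add_sub_assoc, add_sub_assoc, add_sub_assoc, add_mul, mul_add, mul_add, he.eq, h3, h2,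
      Units.val_mul]
    noncomm_ring)

theorem cut_val {e : A} (he : IsIdempotentElem e) (u : supp he) :
    (cut he u).1 = e + ((u : Aˣ) : A) - 1 := rfl

/-- `diag(u, 1)` -/
def dg {e : A} (he : IsIdempotentElem e) :
    he.Corner →* Matrix (Fin 2) (Fin 2) he.Corner where
  toFun x := !![x, 0; 0, 1]
  map_one' := by
    ext i j
    fin_cases i <;> fin_cases j <;> rfl
  map_mul' x y := by
    ext i j
    fin_cases i <;> fin_cases j <;> simp [Matrix.mul_apply]

theorem dg_inj {e : A} (he : IsIdempotentElem e) : Function.Injective (dg he) := by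
  intro x y h
  have h1 := congrFun (congrFun h 0) 0
  exact h1

/-- the homomorphism -/
def cutG {e : A} (he : IsIdempotentElem e) : supp he →* (Matrix (Fin 2) (Fin 2) he.Corner)ˣ :=
  ((dg he).comp (cut he)).toHomUnits

theorem cutG_val {e : A} (he : IsIdempotentElem e) (u : supp he) :
    ((cutG he u : (Matrix (Fin 2) (Fin 2) he.Corner)ˣ) : Matrix (Fin 2) (Fin 2) he.Corner) =
      !![cut he u, 0; 0, 1] := rfl

theorem cutG_inj {e : A} (he : IsIdempotentElem e) : Function.Injective (cutG he) := by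
  intro u v h
  have h1 : (dg he) (cut he u) = (dg he) (cut he v) := congrArg Units.val h
  have h2 := dg_inj he h1
  have h3 : e + ((u : Aˣ) : A) - 1 = e + ((v : Aˣ) : A) - 1 := congrArg Subtype.val h2
  apply Subtype.ext
  apply Units.ext
  have h4 : e + ((u : Aˣ) : A) = e + ((v : Aˣ) : A) := sub_left_injective h3
  exact add_left_cancel h4

/-- **realization on corners** -/
theorem lemT {H : Type} [Group H] (θ : H →* Aˣ) (E : Set H) (g : H) (e e' : A)
    (he : IsIdempotentElem e) (he' : IsIdempotentElem e')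
    (hE : ∀ x ∈ E, e * ((θ x : A) - 1) = θ x - 1 ∧ ((θ x : A) - 1) * e = θ x - 1)
    (h1 : e' * e = e) (h2 : e * e' = e)
    (h3 : e' * (θ g * e * ((θ g)⁻¹ : Aˣ)) = θ g * e * ((θ g)⁻¹ : Aˣ))
    (h4 : (θ g * e * ((θ g)⁻¹ : Aˣ)) * e' = θ g * e * ((θ g)⁻¹ : Aˣ))
    (hf : ∀ h ∈ Subgroup.closure (E ∪ (fun x => g * x * g⁻¹) '' E), θ h = 1 → h = 1) :
    ∃ (f : ↥(Subgroup.closure (E ∪ (fun x => g * x * g⁻¹) '' E)) →*
        (Matrix (Fin 2) (Fin 2) he'.Corner)ˣ)
      (p : (Matrix (Fin 2) (Fin 2) he'.Corner)ˣ), Function.Injective f ∧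
      ∀ x y : ↥(Subgroup.closure (E ∪ (fun x => g * x * g⁻¹) '' E)),
        (x : H) ∈ E → (y : H) = g * x * g⁻¹ → f y = p * f x * p⁻¹ := by
  classical
  obtain ⟨γ, hγ⟩ : ∃ γ : A, γ = (θ g : A) := ⟨_, rfl⟩
  obtain ⟨δ, hδ⟩ : ∃ δ : A, δ = ((θ g)⁻¹ : Aˣ) := ⟨_, rfl⟩
  have hγδ : γ * δ = 1 := by rw [hγ, hδ, Units.mul_inv]
  have hδγ : δ * γ = 1 := by rw [hγ, hδ, Units.inv_mul]
  rw [← hγ, ← hδ] at h3 h4
  -- the two idempotents and the elements of the corner
  have hu1 : e' * (γ * e) = γ * e := by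
    have : γ * e = (γ * e * δ) * (γ * e) := by
      rw [mul_assoc (γ * e) δ, ← mul_assoc δ γ e, hδγ, one_mul, mul_assoc, he.eq]
    rw [this, ← mul_assoc, h3]
  have hu2 : (γ * e) * e' = γ * e := by rw [mul_assoc, h2]
  have hv1 : e' * (e * δ) = e * δ := by rw [← mul_assoc, h1]
  have hv2 : (e * δ) * e' = e * δ := by
    have : e * δ = (e * δ) * (γ * e * δ) := by
      rw [← mul_assoc (e * δ) (γ * e) δ, ← mul_assoc (e * δ) γ e, mul_assoc e δ γ, hδγ, mul_one, he.eq]
    rw [this, mul_assoc, h4]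
  have ha1 : e' * (e' - e) = e' - e := by rw [mul_sub, he'.eq, h1]
  have ha2 : (e' - e) * e' = e' - e := by rw [sub_mul, he'.eq, h2]
  have hb1 : e' * (e' - γ * e * δ) = e' - γ * e * δ := by rw [mul_sub, he'.eq, h3]
  have hb2 : (e' - γ * e * δ) * e' = e' - γ * e * δ := by rw [sub_mul, he'.eq, h4]
  let u : he'.Corner := mkC he' (γ * e) ⟨hu1, hu2⟩
  let v : he'.Corner := mkC he' (e * δ) ⟨hv1, hv2⟩
  let a : he'.Corner := mkC he' (e' - e) ⟨ha1, ha2⟩
  let b : he'.Corner := mkC he' (e' - γ * e * δ) ⟨hb1, hb2⟩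
  have huv : u * v + b * b = 1 := Subtype.ext (by
    show (γ * e) * (e * δ) + (e' - γ * e * δ) * (e' - γ * e * δ) = e'
    have h5 : (γ * e) * (e * δ) = γ * e * δ := by rw [← mul_assoc, mul_assoc γ e e, he.eq]
    have h6 : (γ * e * δ) * (γ * e * δ) = γ * e * δ := by
      rw [← mul_assoc (γ * e * δ) (γ * e) δ, mul_assoc (γ * e) δ (γ * e), ← mul_assoc δ γ e, hδγ,
        one_mul, mul_assoc γ e e, he.eq]
    rw [h5, sub_mul, hb1, mul_sub, h4, h6]
    abel)
  have hvu : v * u + a * a = 1 := Subtype.ext (by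
    show (e * δ) * (γ * e) + (e' - e) * (e' - e) = e'
    have h5 : (e * δ) * (γ * e) = e := by rw [mul_assoc, ← mul_assoc δ γ e, hδγ, one_mul, he.eq]
    rw [h5, sub_mul, ha1, mul_sub, h2, he.eq]
    abel)
  have hua : u * a = 0 := Subtype.ext (by
    show (γ * e) * (e' - e) = 0
    rw [mul_sub, hu2, mul_assoc, he.eq, sub_self])
  have hbu : b * u = 0 := Subtype.ext (by
    show (e' - γ * e * δ) * (γ * e) = 0
    rw [sub_mul, hu1, mul_assoc (γ * e) δ (γ * e), ← mul_assoc δ γ e, hδγ, one_mul, mul_assoc γ e e,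
      he.eq, sub_self])
  have hav : a * v = 0 := Subtype.ext (by
    show (e' - e) * (e * δ) = 0
    rw [sub_mul, hv1, ← mul_assoc, he.eq, sub_self])
  have hvb : v * b = 0 := Subtype.ext (by
    show (e * δ) * (e' - γ * e * δ) = 0
    rw [mul_sub, hv2, ← mul_assoc (e * δ) (γ * e) δ, ← mul_assoc (e * δ) γ e, mul_assoc e δ γ, hδγ,
      mul_one, he.eq, sub_self])
  let p : (Matrix (Fin 2) (Fin 2) he'.Corner)ˣ :=
    { val := !![u, b; a, v]
      inv := !![v, a; b, u]
      val_inv := by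
        rw [Matrix.mul_fin_two, huv, hua, hbu, hav, hvb, add_comm (a * a), hvu, add_zero,
          Matrix.one_fin_two]
      inv_val := by
        rw [Matrix.mul_fin_two, hvu, hvb, hav, hbu, hua, add_comm (b * b), huv, add_zero,
          Matrix.one_fin_two] }
  -- the group is supported on the corner
  have hEs : ∀ x ∈ E, θ x ∈ supp he' := by
    intro x hx
    obtain ⟨h5, h6⟩ := hE x hx
    refine (mem_supp he' _).2 ⟨?_, ?_⟩
    · rw [← h5, ← mul_assoc, h1]
    · rw [← h6, mul_assoc, h2]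
  have hval : ∀ x, ((θ (g * x * g⁻¹) : Aˣ) : A) - 1 = γ * ((θ x : A) - 1) * δ := by
    intro x
    rw [map_mul, map_mul, map_inv, Units.val_mul, Units.val_mul, ← hγ, ← hδ, mul_sub, sub_mul,
      mul_one, hγδ]
  have hEg : ∀ x ∈ E, θ (g * x * g⁻¹) ∈ supp he' := by
    intro x hx
    obtain ⟨h5, h6⟩ := hE x hx
    have h7 : γ * ((θ x : A) - 1) * δ = (γ * e * δ) * (γ * ((θ x : A) - 1) * δ) := by
      rw [mul_assoc (γ * e) δ, ← mul_assoc δ (γ * _) δ, ← mul_assoc δ γ, hδγ, one_mul,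
        ← mul_assoc (γ * e), mul_assoc γ e, h5]
    have h8 : γ * ((θ x : A) - 1) * δ = (γ * ((θ x : A) - 1) * δ) * (γ * e * δ) := by
      rw [mul_assoc (γ * _) δ, ← mul_assoc δ (γ * e) δ, ← mul_assoc δ γ e, hδγ, one_mul,
        ← mul_assoc (γ * _) e δ, mul_assoc γ _ e, h6]
    refine (mem_supp he' _).2 ⟨?_, ?_⟩
    · rw [hval, h7, ← mul_assoc, h3]
    · rw [hval, h8, mul_assoc, h4]
  have hle : Subgroup.closure (E ∪ (fun x => g * x * g⁻¹) '' E) ≤ (supp he').comap θ := by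
    rw [Subgroup.closure_le]
    rintro y (hy | ⟨x, hx, rfl⟩)
    · exact hEs y hy
    · exact hEg x hx
  let r : ↥(Subgroup.closure (E ∪ (fun x => g * x * g⁻¹) '' E)) →* supp he' :=
    (θ.comp (Subgroup.subtype _)).codRestrict (supp he') fun x => hle x.2
  refine ⟨(cutG he').comp r, p, ?_, ?_⟩
  · rw [injective_iff_map_eq_one]
    intro x hx
    have h5 : r x = 1 := cutG_inj he' (by rw [map_one]; exact hx)
    exact Subtype.ext (hf x x.2 (congrArg Subtype.val h5))
  · intro x y hx hy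
    have hX : ((θ (x : H) : Aˣ) : A) = ((r x : Aˣ) : A) := rfl
    have hY : ((θ (y : H) : Aˣ) : A) = ((r y : Aˣ) : A) := rfl
    obtain ⟨h5, h6⟩ := hE x hx
    have hy1 : ((θ (y : H) : Aˣ) : A) - 1 = γ * ((θ (x : H) : A) - 1) * δ := by rw [hy, hval]
    have e1 : cut he' (r y) * u = u * cut he' (r x) := Subtype.ext (by
      show (e' + ((θ (y : H) : Aˣ) : A) - 1) * (γ * e) = (γ * e) * (e' + ((θ (x : H) : Aˣ) : A) - 1)
      rw [add_sub_assoc, add_sub_assoc, add_mul, mul_add, hu1, hu2, hy1]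
      congr 1
      rw [mul_assoc (γ * _) δ, ← mul_assoc δ γ e, hδγ, one_mul, mul_assoc γ _ e, h6, mul_assoc γ e,
        h5])
    have e2 : cut he' (r y) * b = b := Subtype.ext (by
      show (e' + ((θ (y : H) : Aˣ) : A) - 1) * (e' - γ * e * δ) = e' - γ * e * δ
      rw [add_sub_assoc, add_mul, hb1, hy1]
      have h7 : (γ * ((θ (x : H) : A) - 1) * δ) * (e' - γ * e * δ) = 0 := by
        have h8 : γ * ((θ (x : H) : A) - 1) * δ =
            (γ * ((θ (x : H) : A) - 1) * δ) * (γ * e * δ) := by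
          rw [mul_assoc (γ * _) δ, ← mul_assoc δ (γ * e) δ, ← mul_assoc δ γ e, hδγ, one_mul,
            ← mul_assoc (γ * _) e δ, mul_assoc γ _ e, h6]
        have h9 : (γ * e * δ) * (e' - γ * e * δ) = 0 := by
          rw [mul_sub, h4, ← mul_assoc (γ * e * δ) (γ * e) δ, mul_assoc (γ * e) δ (γ * e),
            ← mul_assoc δ γ e, hδγ, one_mul, mul_assoc γ e e, he.eq, sub_self]
        rw [h8, mul_assoc, h9, mul_zero]
      rw [h7, add_zero])
    have e3 : a * cut he' (r x) = a := Subtype.ext (by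
      show (e' - e) * (e' + ((θ (x : H) : Aˣ) : A) - 1) = e' - e
      rw [add_sub_assoc, mul_add, ha2]
      have h7 : (e' - e) * (((θ (x : H) : Aˣ) : A) - 1) = 0 := by
        rw [← h5, ← mul_assoc, sub_mul, h1, he.eq, sub_self, zero_mul]
      rw [h7, add_zero])
    have key : cutG he' (r y) * p = p * cutG he' (r x) := by
      apply Units.ext
      show !![cut he' (r y), 0; 0, 1] * !![u, b; a, v] = !![u, b; a, v] * !![cut he' (r x), 0; 0, 1]
      rw [Matrix.mul_fin_two, Matrix.mul_fin_two]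
      simp only [e1, e2, e3, zero_mul, mul_zero, one_mul, mul_one, add_zero, zero_add]
    show cutG he' (r y) = p * cutG he' (r x) * p⁻¹
    rw [← key, mul_assoc, mul_inv_cancel, mul_one]

end ring

end Pool.Agent.W5h90.FL
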